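import Pool.Agent.Helper30.Bog.Mono

/-!
# MP_a4e7e3_co: sets which are monotone in suitable functions of the coordinates
-/

set_option autoImplicit false

open MeasureTheory Set

namespace Pool.Agent.Helper30.Variants.MonotoneSets

/-- A quantile: `q` with `μ {f ≤ q} ≥ 11/20` and `μ {f ≥ q} ≥ 9/20`. -/
theorem exists_quantile {f : UnitAddCircle → ℝ} (hf : Measurable f) :
    ∃ q : ℝ, 11 / 20 ≤ volume.real {x | f x ≤ q} ∧ 9 / 20 ≤ volume.real {x | q ≤ f x} := by
  set F : ℝ → ℝ := fun t => volume.real {x | f x ≤ t} with hF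
  have hmeas : ∀ t, MeasurableSet {x | f x ≤ t} := fun t => measurableSet_le hf measurable_const
  have hmono : Monotone F := fun s t hst => measureReal_mono
    (fun x (hx : f x ≤ s) => hx.trans hst) (measure_ne_top _ _)
  set S : Set ℝ := {t | 11 / 20 ≤ F t} with hS
  -- `F n → 1`
  have htop : Filter.Tendsto (fun n : ℕ => F n) Filter.atTop (nhds 1) := by
    have h1 : Filter.Tendsto (fun n : ℕ => volume {x | f x ≤ (n : ℝ)}) Filter.atTop
        (nhds (volume (⋃ n : ℕ, {x | f x ≤ (n : ℝ)}))) := by
      refine tendsto_measure_iUnion_atTop ?_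
      intro a b hab x (hx : f x ≤ a)
      exact hx.trans (by exact_mod_cast hab)
    have h2 : (⋃ n : ℕ, {x | f x ≤ (n : ℝ)}) = univ := by
      ext x
      simp only [mem_iUnion, mem_ofPred_eq, mem_univ, iff_true]
      exact exists_nat_ge (f x)
    rw [h2, measure_univ] at h1
    have h3 := (ENNReal.tendsto_toReal ENNReal.one_ne_top).comp h1
    rw [ENNReal.toReal_one] at h3
    exact h3
  have hbot : Filter.Tendsto (fun n : ℕ => F (-(n : ℝ))) Filter.atTop (nhds 0) := by
    have h1 : Filter.Tendsto (fun n : ℕ => volume {x | f x ≤ -(n : ℝ)}) Filter.atTop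
        (nhds (volume (⋂ n : ℕ, {x | f x ≤ -(n : ℝ)}))) := by
      refine tendsto_measure_iInter_atTop (fun n => (hmeas _).nullMeasurableSet) ?_
        ⟨0, measure_ne_top _ _⟩
      intro a b hab x (hx : f x ≤ -(b : ℝ))
      exact hx.trans (neg_le_neg (by exact_mod_cast hab))
    have h2 : (⋂ n : ℕ, {x | f x ≤ -(n : ℝ)}) = ∅ := by
      ext x
      simp only [mem_iInter, mem_ofPred_eq, mem_empty_iff_false, iff_false, not_forall, not_le]
      obtain ⟨n, hn⟩ := exists_nat_gt (-f x)
      exact ⟨n, by linarith⟩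
    rw [h2, measure_empty] at h1
    have h3 := (ENNReal.tendsto_toReal ENNReal.zero_ne_top).comp h1
    rw [ENNReal.toReal_zero] at h3
    exact h3
  have hne : S.Nonempty := by
    obtain ⟨n, hn⟩ := (htop.eventually (lt_mem_nhds (show (11 / 20 : ℝ) < 1 by norm_num))).exists
    exact ⟨n, hn.le⟩
  have hbdd : BddBelow S := by
    obtain ⟨n, hn⟩ := (hbot.eventually (gt_mem_nhds (show (0 : ℝ) < 11 / 20 by norm_num))).exists
    refine ⟨-(n : ℝ), fun t ht => ?_⟩
    by_contra hcon
    rw [not_le] at hcon
    have h1 : F t ≤ F (-(n : ℝ)) := hmono hcon.le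
    have h2 : 11 / 20 ≤ F t := ht
    linarith
  set q : ℝ := sInf S with hq
  have hseq : Filter.Tendsto (fun n : ℕ => q + 1 / ((n : ℝ) + 1)) Filter.atTop (nhds q) := by
    have := tendsto_one_div_add_atTop_nhds_zero_nat (𝕜 := ℝ)
    simpa using (this.const_add q)
  refine ⟨q, ?_, ?_⟩
  · have h1 : Filter.Tendsto (fun n : ℕ => volume {x | f x ≤ q + 1 / ((n : ℝ) + 1)})
        Filter.atTop (nhds (volume (⋂ n : ℕ, {x | f x ≤ q + 1 / ((n : ℝ) + 1)}))) := by
      refine tendsto_measure_iInter_atTop (fun n => (hmeas _).nullMeasurableSet) ?_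
        ⟨0, measure_ne_top _ _⟩
      intro a b hab x (hx : f x ≤ q + 1 / ((b : ℝ) + 1))
      refine hx.trans (add_le_add_right ?_ q)
      exact one_div_le_one_div_of_le (by positivity) (by
        have : (a : ℝ) ≤ b := by exact_mod_cast hab
        linarith)
    have h2 : (⋂ n : ℕ, {x | f x ≤ q + 1 / ((n : ℝ) + 1)}) = {x | f x ≤ q} := by
      ext x
      simp only [mem_iInter, mem_ofPred_eq]
      constructor
      · intro h
        exact ge_of_tendsto' hseq h
      · intro h n
        have : (0 : ℝ) < 1 / ((n : ℝ) + 1) := by positivity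
        linarith
    rw [h2] at h1
    have h3 := (ENNReal.tendsto_toReal (measure_ne_top volume {x | f x ≤ q})).comp h1
    refine ge_of_tendsto' h3 (fun n => ?_)
    have h4 : q < q + 1 / ((n : ℝ) + 1) := by
      have : (0 : ℝ) < 1 / ((n : ℝ) + 1) := by positivity
      linarith
    obtain ⟨t, ht, htq⟩ := exists_lt_of_csInf_lt hne h4
    exact (show 11 / 20 ≤ F t from ht).trans (hmono htq.le)
  · have h1 : Filter.Tendsto (fun n : ℕ => volume {x | q - 1 / ((n : ℝ) + 1) < f x})
        Filter.atTop (nhds (volume (⋂ n : ℕ, {x | q - 1 / ((n : ℝ) + 1) < f x}))) := by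
      refine tendsto_measure_iInter_atTop
        (fun n => (measurableSet_lt measurable_const hf).nullMeasurableSet) ?_
        ⟨0, measure_ne_top _ _⟩
      intro a b hab x (hx : q - 1 / ((b : ℝ) + 1) < f x)
      refine lt_of_le_of_lt (sub_le_sub_left ?_ q) hx
      exact one_div_le_one_div_of_le (by positivity) (by
        have : (a : ℝ) ≤ b := by exact_mod_cast hab
        linarith)
    have hseq' : Filter.Tendsto (fun n : ℕ => q - 1 / ((n : ℝ) + 1)) Filter.atTop (nhds q) := by
      have := tendsto_one_div_add_atTop_nhds_zero_nat (𝕜 := ℝ)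
      simpa using (this.const_sub q)
    have h2 : (⋂ n : ℕ, {x | q - 1 / ((n : ℝ) + 1) < f x}) = {x | q ≤ f x} := by
      ext x
      simp only [mem_iInter, mem_ofPred_eq]
      constructor
      · intro h
        exact le_of_tendsto' hseq' (fun n => (h n).le)
      · intro h n
        have : (0 : ℝ) < 1 / ((n : ℝ) + 1) := by positivity
        linarith
    rw [h2] at h1
    have h3 := (ENNReal.tendsto_toReal (measure_ne_top volume {x | q ≤ f x})).comp h1
    refine ge_of_tendsto' h3 (fun n => ?_)
    have h4 : q - 1 / ((n : ℝ) + 1) < q := by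
      have : (0 : ℝ) < 1 / ((n : ℝ) + 1) := by positivity
      linarith
    have h5 : F (q - 1 / ((n : ℝ) + 1)) < 11 / 20 := by
      by_contra hcon
      rw [not_lt] at hcon
      have := csInf_le hbdd (show q - 1 / ((n : ℝ) + 1) ∈ S from hcon)
      linarith
    have h6 : {x | q - 1 / ((n : ℝ) + 1) < f x} = {x | f x ≤ q - 1 / ((n : ℝ) + 1)}ᶜ := by
      ext x
      simp only [mem_ofPred_eq, mem_compl_iff, not_le]
    show 9 / 20 ≤ (volume {x | q - 1 / ((n : ℝ) + 1) < f x}).toReal
    rw [h6]
    have h7 : volume.real {x | f x ≤ q - 1 / ((n : ℝ) + 1)}ᶜ =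
        1 - volume.real {x | f x ≤ q - 1 / ((n : ℝ) + 1)} := by
      rw [measureReal_compl (hmeas _)]
      simp
    have h8 : (volume {x | f x ≤ q - 1 / ((n : ℝ) + 1)}ᶜ).toReal =
        1 - F (q - 1 / ((n : ℝ) + 1)) := h7
    rw [h8]
    linarith

theorem result (d : ℕ) (f : Fin d → UnitAddCircle → ℝ) (hf : ∀ i, Measurable (f i))
    (D : Set (Fin d → ℝ)) (hD : IsLowerSet D) (A : Set (Fin d → UnitAddCircle))
    (hAD : A = {x | (fun i => f i (x i)) ∈ D}) (hA : MeasurableSet A) (hpos : 0 < volume A) :
    ∃ J : Finset (Fin d),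
      (J.card : ℝ) ≤ 3 * Real.log (1 / (volume A).toReal) ∧
      {y : Fin d → UnitAddCircle | ∀ i ∈ J, y i = 0} ⊆
        {y | ∃ a b : Fin 3 → (Fin d → UnitAddCircle),
          (∀ l, a l ∈ A) ∧ (∀ l, b l ∈ A) ∧ y = (∑ l, a l) - (∑ l, b l)} := by
  classical
  have hα0 : 0 < (volume A).toReal := ENNReal.toReal_pos hpos.ne' (measure_ne_top _ _)
  choose q hq1 hq2 using fun i => exists_quantile (hf i)
  obtain ⟨x₁, k1, x₂, k2, x₃, k3, J, hJ1, hJ2⟩ := Pool.Agent.Helper30.Bog.cov d
    (fun i => {x | q i ≤ f i x}) (fun i => measurableSet_le measurable_const (hf i)) hq2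
    A A A hA hA hA hα0 hα0 hα0
  refine ⟨J, ?_, ?_⟩
  · have h1 : Real.exp J.card * ((volume A).toReal) ^ 3 ≤ 1 := by
      have e : ((volume A).toReal) ^ 3 = volume.real A * volume.real A * volume.real A := by
        show volume.real A ^ 3 = _
        ring
      rw [e]; exact hJ1
    have h2 := Real.log_le_log (by positivity) h1
    rw [Real.log_mul (Real.exp_pos _).ne' (by positivity), Real.log_exp, Real.log_pow,
      Real.log_one] at h2
    rw [Real.log_div one_ne_zero hα0.ne', Real.log_one]
    push_cast at h2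
    linarith
  · intro y hy
    have hy' : ∀ i ∈ J, y i = 0 := hy
    -- the index of a set which is high at `i`
    set x : Fin 3 → (Fin d → UnitAddCircle) := ![x₁, x₂, x₃] with hx
    have hxA : ∀ l, x l ∈ A := by
      intro l
      fin_cases l
      · exact k1
      · exact k2
      · exact k3
    have hl : ∀ i, ∃ l : Fin 3, i ∉ J → q i ≤ f i (x l i) := by
      intro i
      by_cases h : i ∈ J
      · exact ⟨0, fun h' => (h' h).elim⟩
      · rcases hJ2 i h with h' | h' | h'
        · exact ⟨0, fun _ => h'⟩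
        · exact ⟨1, fun _ => h'⟩
        · exact ⟨2, fun _ => h'⟩
    choose l hl using hl
    -- differences in the low sets
    have huv : ∀ i, ∃ u v : UnitAddCircle, f i u ≤ q i ∧ f i v ≤ q i ∧ u - v = y i := by
      intro i
      have hm : MeasurableSet {x | f i x ≤ q i} := measurableSet_le (hf i) measurable_const
      have hm' : MeasurableSet ((fun t : UnitAddCircle => y i + t) ⁻¹' {x | f i x ≤ q i}) :=
        (measurable_const.add measurable_id) hm
      have hpre : volume ((fun t : UnitAddCircle => y i + t) ⁻¹' {x | f i x ≤ q i}) =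
          volume {x | f i x ≤ q i} := measure_preimage_add volume (y i) _
      have hlt : volume (univ : Set UnitAddCircle) < volume {x | f i x ≤ q i} +
          volume ((fun t : UnitAddCircle => y i + t) ⁻¹' {x | f i x ≤ q i}) := by
        rw [hpre, measure_univ]
        have h0 := hq1 i
        rw [measureReal_def] at h0
        have h2 : ENNReal.ofReal 1 < ENNReal.ofReal ((volume {x | f i x ≤ q i}).toReal +
            (volume {x | f i x ≤ q i}).toReal) :=
          (ENNReal.ofReal_lt_ofReal_iff (by linarith)).mpr (by linarith)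
        rw [ENNReal.ofReal_one, ENNReal.ofReal_add (by linarith) (by linarith),
          ENNReal.ofReal_toReal (measure_ne_top _ _)] at h2
        exact h2
      obtain ⟨v, hv1, hv2⟩ := nonempty_inter_of_measure_lt_add volume hm' (subset_univ _)
        (subset_univ _) hlt
      exact ⟨y i + v, v, hv2, hv1, by abel⟩
    choose u v hu hv huv using huv
    have hmem : ∀ (w : Fin d → UnitAddCircle), (∀ i, f i (w i) ≤ q i) → ∀ k : Fin 3,
        (fun i => if i ∉ J ∧ l i = k then w i else x k i) ∈ A := by
      intro w hw k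
      have h1 : (fun i => f i (x k i)) ∈ D := by
        have := hxA k
        rw [hAD] at this
        exact this
      rw [hAD]
      show (fun i => f i (if i ∉ J ∧ l i = k then w i else x k i)) ∈ D
      refine hD ?_ h1
      intro i
      show f i (if i ∉ J ∧ l i = k then w i else x k i) ≤ f i (x k i)
      split_ifs with h
      · refine (hw i).trans ?_
        rw [← h.2]
        exact hl i h.1
      · exact le_rfl
    refine ⟨fun k i => if i ∉ J ∧ l i = k then u i else x k i,
      fun k i => if i ∉ J ∧ l i = k then v i else x k i, hmem u hu, hmem v hv, ?_⟩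
    funext i
    simp only [Pi.sub_apply, Finset.sum_apply]
    rw [← Finset.sum_sub_distrib]
    by_cases h : i ∈ J
    · rw [hy' i h]
      simp [h]
    · rw [Finset.sum_eq_single (l i)]
      · simp only [h, not_false_eq_true, and_self, if_true]
        exact (huv i).symm
      · intro k _ hk
        have : ¬ (i ∉ J ∧ l i = k) := fun h' => hk h'.2.symm
        rw [if_neg this, if_neg this, sub_self]
      · intro h'
        exact absurd (Finset.mem_univ _) h'

end Pool.Agent.Helper30.Variants.MonotoneSets
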