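import Pool.Agent.Helper30.Bog.Proj

/-!
# MP_a4e7e3_co: three-fold sumsets project onto large coordinate tori

Every measurable set of measure `α` in `𝕋^d` has a three-fold sumset which is mapped ONTO the torus
of all but at most `log (1/α) / log φ` of the coordinates (`φ` the golden ratio).
-/

set_option autoImplicit false

open MeasureTheory Set

namespace Pool.Agent.Results.MP_a4e7e3_co.ProjectionTheorem

theorem result (d : ℕ) (A₁ A₂ A₃ : Set (Fin d → UnitAddCircle))
    (m₁ : MeasurableSet A₁) (m₂ : MeasurableSet A₂) (m₃ : MeasurableSet A₃)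
    (h₁ : 0 < volume A₁) (h₂ : 0 < volume A₂) (h₃ : 0 < volume A₃) :
    ∃ J : Finset (Fin d),
      (J.card : ℝ) ≤ (Real.log (1 / (volume A₁).toReal) + Real.log (1 / (volume A₂).toReal) +
        Real.log (1 / (volume A₃).toReal)) / (3 * Real.log Real.goldenRatio) ∧
      ∀ z : Fin d → UnitAddCircle, ∃ x₁ ∈ A₁, ∃ x₂ ∈ A₂, ∃ x₃ ∈ A₃,
        ∀ i ∉ J, x₁ i + x₂ i + x₃ i = z i := by
  have p : ∀ A : Set (Fin d → UnitAddCircle), 0 < volume A → 0 < (volume A).toReal := fun A hA =>
    ENNReal.toReal_pos hA.ne' (measure_ne_top _ _)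
  have q₁ := p A₁ h₁
  have q₂ := p A₂ h₂
  have q₃ := p A₃ h₃
  obtain ⟨J, hJ1, hJ2⟩ := Pool.Agent.Helper30.Bog.proj d A₁ A₂ A₃ m₁ m₂ m₃ q₁ q₂ q₃
  refine ⟨J, ?_, hJ2⟩
  have hlog : 0 < Real.log Real.goldenRatio := Real.log_pos Real.one_lt_goldenRatio
  rw [le_div_iff₀ (by positivity)]
  have e1 : Real.log (1 / (volume A₁).toReal) + Real.log (1 / (volume A₂).toReal) +
      Real.log (1 / (volume A₃).toReal) =
      -Real.log ((volume A₁).toReal * (volume A₂).toReal * (volume A₃).toReal) := by
    rw [Real.log_mul (by positivity) q₃.ne', Real.log_mul q₁.ne' q₂.ne',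
      Real.log_div one_ne_zero q₁.ne', Real.log_div one_ne_zero q₂.ne',
      Real.log_div one_ne_zero q₃.ne', Real.log_one]
    ring
  rw [e1]
  have h6 := Real.log_le_log (by
    have : 0 < Real.goldenRatio := Real.goldenRatio_pos
    exact mul_pos (pow_pos this _) (mul_pos (mul_pos q₁ q₂) q₃)) hJ1
  have e2 : Real.log (Real.goldenRatio ^ (3 * J.card) *
      ((volume A₁).toReal * (volume A₂).toReal * (volume A₃).toReal)) =
      (3 * (J.card : ℝ)) * Real.log Real.goldenRatio +
        Real.log ((volume A₁).toReal * (volume A₂).toReal * (volume A₃).toReal) := by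
    rw [Real.log_mul (pow_pos Real.goldenRatio_pos _).ne' (by positivity), Real.log_pow]
    push_cast
    ring
  rw [Real.log_one] at h6
  have h7 : (3 * (J.card : ℝ)) * Real.log Real.goldenRatio +
      Real.log ((volume A₁).toReal * (volume A₂).toReal * (volume A₃).toReal) ≤ 0 := by
    rw [← e2]; exact h6
  linarith

end Pool.Agent.Results.MP_a4e7e3_co.ProjectionTheorem
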