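import Pool.Agent.Helper30.Bog.Sym

/-!
# MP_a4e7e3_co: sets closed under a non-translation affine map of each coordinate
(for instance sets invariant under the sign change of each coordinate)
-/

set_option autoImplicit false

open MeasureTheory Set

namespace Pool.Agent.Results.MP_a4e7e3_co.ReflectionInvariant

theorem result (d : ℕ) (A : Set (Fin d → UnitAddCircle))
    (hA : MeasurableSet A) (hpos : 0 < volume A)
    (n : Fin d → ℤ) (c : Fin d → UnitAddCircle) (hn : ∀ i, n i ≠ 1)
    (hinv : ∀ x ∈ A, ∀ i, Function.update x i (n i • x i + c i) ∈ A) :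
    ∃ J : Finset (Fin d),
      (J.card : ℝ) ≤ Real.log (1 / (volume A).toReal) / Real.log Real.goldenRatio ∧
      {y : Fin d → UnitAddCircle | ∀ i ∈ J, y i = 0} ⊆
        {y | ∃ a b : Fin 3 → (Fin d → UnitAddCircle),
          (∀ l, a l ∈ A) ∧ (∀ l, b l ∈ A) ∧ y = (∑ l, a l) - (∑ l, b l)} := by
  classical
  have hα0 : 0 < (volume A).toReal := ENNReal.toReal_pos hpos.ne' (measure_ne_top _ _)
  obtain ⟨J, hJ1, hJ2⟩ := Pool.Agent.Helper30.Bog.proj_one hA hα0
  refine ⟨J, hJ1, ?_⟩
  intro y hy
  have hy' : ∀ i ∈ J, y i = 0 := hy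
  -- division in the circle
  have hdiv : ∀ (k : ℤ) (w : UnitAddCircle), k ≠ 0 → ∃ v : UnitAddCircle, k • v = w := by
    intro k w hk
    induction w using QuotientAddGroup.induction_on with
    | H r =>
      refine ⟨((r / k : ℝ) : UnitAddCircle), ?_⟩
      rw [← AddCircle.coe_zsmul]
      congr 1
      rw [zsmul_eq_mul]
      field_simp
  choose v hv using fun i => hdiv (1 - n i) (y i + 3 • c i) (sub_ne_zero.mpr (hn i).symm)
  obtain ⟨x, hx1, hx2⟩ := hJ2 v
  -- apply the maps in all coordinates outside `J`
  have hmap : ∀ S : Finset (Fin d), ∀ z ∈ A,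
      (fun i => if i ∈ S then n i • z i + c i else z i) ∈ A := by
    intro S
    induction S using Finset.induction_on with
    | empty => intro z hz; simpa using hz
    | insert j S hj ih =>
      intro z hz
      have h1 := hinv _ (ih z hz) j
      convert h1 using 1
      funext i
      by_cases hij : i = j
      · subst hij
        simp [hj]
      · rw [Function.update_of_ne hij]
        simp [hij]
  refine ⟨x, fun l i => if i ∈ Finset.univ \ J then n i • x l i + c i else x l i, hx1,
    fun l => hmap (Finset.univ \ J) (x l) (hx1 l), ?_⟩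
  funext i
  simp only [Pi.sub_apply, Finset.sum_apply, Finset.mem_sdiff, Finset.mem_univ, true_and]
  by_cases h : i ∈ J
  · simp only [h, not_true_eq_false, if_false, sub_self]
    exact hy' i h
  · simp only [h, not_false_eq_true, if_true]
    have h1 := hx2 i h
    rw [Finset.sum_apply] at h1
    rw [Finset.sum_add_distrib, ← Finset.smul_sum, h1, Finset.sum_const, Finset.card_univ,
      Fintype.card_fin]
    have h2 := hv i
    rw [sub_smul, one_smul] at h2
    have h3 : v i - n i • v i - 3 • c i = y i := by
      rw [h2]; abel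
    rw [← h3]
    abel

end Pool.Agent.Results.MP_a4e7e3_co.ReflectionInvariant
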